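import Pool.Agent.N121.AH.Prod

/-!
# Pull-back of the family of all hyperelliptic curves under a linear map
-/

set_option autoImplicit false
set_option linter.unusedSectionVars false

open Filter Matrix Topology

namespace Pool.Agent.N121.BF

open Pool.Agent.Y118.HP (jm jm_apply SpS jm_det jm_transpose jm_map SpS_map qm dl dl_ne dl_mul bm bm_eq perC TV sp_gen)
open Pool.Agent.Y890.MV
open Pool.Agent.Y890.HE
open Pool.Agent.Y890.SM
open Pool.Agent.Y890.SP (Qbar)
open Pool.Agent.N121.OH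
open Pool.Agent.N121.AH

section lin

variable {X : Type} {q : ℕ}

/-- the linear map -/
def Lm (w : Fin (q + 1) → ℂ) (y : X × Fin (q + 1) → ℂ) (x : X) : ℂ := ∑ i, w i * y (x, i)

/-- the section -/
def sm (x : X → ℂ) (p : X × Fin (q + 1)) : ℂ := if p.2 = 0 then x p.1 else 0

theorem Lm_sm {w : Fin (q + 1) → ℂ} (hw : w 0 = 1) (x : X → ℂ) : Lm w (sm x) = x := by
  funext j
  unfold Lm sm
  rw [Finset.sum_eq_single 0]
  · rw [hw, one_mul, if_pos rfl]
  · intro b _ hb
    rw [if_neg hb, mul_zero]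
  · intro h
    exact absurd (Finset.mem_univ _) h

theorem Lm_add (w : Fin (q + 1) → ℂ) (y z : X × Fin (q + 1) → ℂ) : Lm w (y + z) = Lm w y + Lm w z := by
  funext j
  unfold Lm
  simp only [Pi.add_apply, mul_add, Finset.sum_add_distrib]

theorem Lm_smul (w : Fin (q + 1) → ℂ) (c : ℂ) (y : X × Fin (q + 1) → ℂ) :
    Lm w (fun j => c * y j) = fun j => c * Lm w y j := by
  funext j
  unfold Lm
  rw [Finset.mul_sum]
  refine Finset.sum_congr rfl fun i _ => ?_
  ring

/-- the point with the given image -/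
def sh (w : Fin (q + 1) → ℂ) (y : X × Fin (q + 1) → ℂ) (x : X → ℂ) : X × Fin (q + 1) → ℂ := y + sm (x - Lm w y)

theorem Lm_sh {w : Fin (q + 1) → ℂ} (hw : w 0 = 1) (y : X × Fin (q + 1) → ℂ) (x : X → ℂ) : Lm w (sh w y x) = x := by
  unfold sh
  rw [Lm_add, Lm_sm hw, add_sub_cancel]

theorem sh_self (w : Fin (q + 1) → ℂ) (y : X × Fin (q + 1) → ℂ) : sh w y (Lm w y) = y := by
  unfold sh
  rw [sub_self]
  funext p
  simp [sm]

theorem Lm_cont (w : Fin (q + 1) → ℂ) : Continuous (Lm (X := X) w) := by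
  unfold Lm
  fun_prop

theorem sm_cont : Continuous (sm (X := X) (q := q)) := by
  refine continuous_pi fun p => ?_
  unfold sm
  split_ifs
  · exact continuous_apply _
  · exact continuous_const

theorem sh_cont (w : Fin (q + 1) → ℂ) : Continuous fun z : (X → ℂ) × (X × Fin (q + 1) → ℂ) => sh w z.2 z.1 := by
  unfold sh
  exact continuous_snd.add (sm_cont.comp (continuous_fst.sub ((Lm_cont w).comp continuous_snd)))

theorem pre_conn {w : Fin (q + 1) → ℂ} (hw : w 0 = 1) {U : Set (X → ℂ)} (hU : IsPreconnected U) :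
    IsPreconnected (Lm w ⁻¹' U) := by
  have h1 : Lm w ⁻¹' U = (fun z : (X → ℂ) × (X × Fin (q + 1) → ℂ) => sh w z.2 z.1) '' (U ×ˢ Set.univ) := by
    ext y
    constructor
    · intro hy
      exact ⟨(Lm w y, y), ⟨hy, Set.mem_univ _⟩, sh_self w y⟩
    · rintro ⟨⟨x, z⟩, ⟨hx, _⟩, rfl⟩
      show Lm w (sh w z x) ∈ U
      rw [Lm_sh hw]
      exact hx
  rw [h1]
  exact (hU.prod isPreconnected_univ).image _ (sh_cont w).continuousOn

/-- the linear map, continuous -/
noncomputable def LmC [Fintype X] (w : Fin (q + 1) → ℂ) : (X × Fin (q + 1) → ℂ) →L[ℂ] (X → ℂ) :=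
  ContinuousLinearMap.pi fun j => ∑ i, w i • ContinuousLinearMap.proj (R := ℂ) (φ := fun _ : X × Fin (q + 1) => ℂ) (j, i)

theorem LmC_apply [Fintype X] (w : Fin (q + 1) → ℂ) (y : X × Fin (q + 1) → ℂ) : LmC w y = Lm w y := by
  funext j
  unfold LmC Lm
  simp

/-- substitution -/
noncomputable def sbl (w : Fin (q + 1) → ℂ) (y : X × Fin (q + 1) → ℂ) :
    MvPolynomial (X × Fin (q + 1)) ℂ →+* MvPolynomial X ℂ :=
  MvPolynomial.eval₂Hom MvPolynomial.C fun p => MvPolynomial.C (y p) +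
    (if p.2 = 0 then MvPolynomial.X p.1 - MvPolynomial.C (Lm w y p.1) else 0)

theorem sbl_eval (w : Fin (q + 1) → ℂ) (y : X × Fin (q + 1) → ℂ) (x : X → ℂ) (p : MvPolynomial (X × Fin (q + 1)) ℂ) :
    MvPolynomial.eval x (sbl w y p) = MvPolynomial.eval (sh w y x) p := by
  have h1 : (MvPolynomial.eval x).comp (sbl w y) = MvPolynomial.eval (sh w y x) := by
    refine MvPolynomial.ringHom_ext (fun b => ?_) fun j => ?_
    · simp [sbl]
    · simp only [sbl, RingHom.comp_apply, MvPolynomial.coe_eval₂Hom, MvPolynomial.eval₂_X, MvPolynomial.eval_X]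
      rw [map_add, MvPolynomial.eval_C]
      unfold sh sm
      split_ifs with h
      · simp [h]
      · simp [h]
  exact congrArg (fun k => k p) h1

theorem evX_sbl {σ : Type} (w : Fin (q + 1) → ℂ) (y : X × Fin (q + 1) → ℂ) (x : X → ℂ) (Y : σ → ℂ)
    (p : MvPolynomial σ (MvPolynomial (X × Fin (q + 1)) ℂ)) :
    evX x Y (MvPolynomial.map (sbl w y) p) = evX (sh w y x) Y p := by
  unfold evX
  rw [MvPolynomial.eval₂_map]
  congr 1
  exact RingHom.ext fun r => sbl_eval w y x r

end lin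

variable {ι : Type} {n : ι → ℕ} [Fintype ι] [DecidableEq ι] {q : ℕ}

theorem dense_ah (n : ι → ℕ) (R : MvPolynomial (Ix (mi n)) ℂ)
    (hR : ∀ γ ∈ (ahF n).Γ, MvPolynomial.eval (fun q => ((γ q.1).map (algebraMap ℚ ℂ)) q.2.1 q.2.2) R = 0)
    (M : ∀ i, Matrix (Fin (mi n i)) (Fin (mi n i)) ℂ)
    (hM : ∀ i, M i * ((ahF n).J i).map (algebraMap ℚ ℂ) * (M i).transpose = ((ahF n).J i).map (algebraMap ℚ ℂ)) :
    MvPolynomial.eval (fun q => M q.1 q.2.1 q.2.2) R = 0 := (ahF n).dense R hR M hM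

/-- all products of hyperelliptic curves with coefficients in a finitely generated group -/
noncomputable def bfF (n : ι → ℕ) (w : Fin (q + 1) → ℂ) (hw : w 0 = 1) :
    SympFam ((Σ i, Fin (n i + 2)) × Fin (q + 1)) (mi n) where
  U := Lm w ⁻¹' UU n
  isOpen := (ahF n).isOpen.preimage (Lm_cont w)
  conn := pre_conn hw (ahF n).conn
  nonempty := by
    obtain ⟨x, hx⟩ := (ahF n).nonempty
    refine ⟨sm x, ?_⟩
    show Lm w (sm x) ∈ UU n
    rw [Lm_sm hw]
    exact hx
  P := fun i y => PA (pj (Lm w y) i)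
  an := fun i l j => by
    intro y hy
    have h1 := (ahF n).an i l j (Lm w y) hy
    have h2 : AnalyticAt ℂ (fun y => Lm w y) y := by
      have h3 : (fun y : (Σ i, Fin (n i + 2)) × Fin (q + 1) → ℂ => Lm w y) = fun y => LmC w y := by
        funext y
        rw [LmC_apply]
      rw [h3]
      exact (LmC w).analyticAt y
    exact AnalyticAt.fun_comp (g := fun x => (ahF n).P i x l j) h1 h2
  w := fun _ => 1
  Q := fun i => (q0 Qbar (n i)).map MvPolynomial.C
  Q_alt := fun i => by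
    rw [← Matrix.transpose_map, q0_transpose]
    refine Matrix.ext fun a b => ?_
    rw [Matrix.map_apply, Matrix.neg_apply, Matrix.neg_apply, Matrix.map_apply, map_neg]
  J := fun i => bm ℚ (mi n i)
  J_alt := (ahF n).J_alt
  J_det := (ahF n).J_det
  riemann := fun y hy i => by
    have h1 : ((q0 Qbar (n i)).map MvPolynomial.C).map (MvPolynomial.aeval y) = q0 ℂ (n i) := by
      rw [← q0_map (algebraMap Qbar ℂ)]
      refine Matrix.ext fun r s => ?_
      rw [Matrix.map_apply, Matrix.map_apply, Matrix.map_apply, MvPolynomial.aeval_C]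
    rw [h1, pow_one]
    exact PA_riemann (hy i)
  Γ := {γ | ∀ i, γ i ∈ SpS ℚ (mi n i)}
  pres := (ahF n).pres
  mon := fun γ hγ p hp => by
    have key : ∀ y ∈ Lm w ⁻¹' UU n, ∀ x ∈ UU n,
        evX x (fun q => ((γ q.1).map (algebraMap ℚ ℂ) * PA (pj x q.1)) q.2.1 q.2.2) (MvPolynomial.map (sbl w y) p) = 0 := by
      intro y hy
      refine ah_mon γ hγ (MvPolynomial.map (sbl w y) p) ?_
      intro x hx
      rw [evX_sbl]
      have h1 : sh w y x ∈ Lm w ⁻¹' UU n := by
        show Lm w (sh w y x) ∈ UU n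
        rw [Lm_sh hw]
        exact hx
      have h2 := hp _ h1
      rw [Lm_sh hw] at h2
      exact h2
    intro y hy
    have h1 := key y hy (Lm w y) hy
    rw [evX_sbl, sh_self] at h1
    exact h1
  dense := fun R hR M hM => dense_ah n R hR M hM

end Pool.Agent.N121.BF
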