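import Pool.Agent.N121.AH.Arr
import Pool.Agent.N121.BF.Pull

/-!
# Relations given by arrays of integers, at the scaled points
-/

set_option autoImplicit false
set_option linter.unusedSectionVars false

open Complex Set Filter Topology NumberField

namespace Pool.Agent.N121.BF

open Pool.Agent.Y118.HP (qm bm)
open Pool.Agent.Y890.MV
open Pool.Agent.Y890.SM
open Pool.Agent.Y890.SP (Qbar)
open Pool.Agent.N121.OH (arv)
open Pool.Agent.N121.AH (mi mm UU PA U2 fp TorG rs PM scp rs_PM rs_inv exq exL exq_le exq_eq arv_scale zc zc_map rs_tor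
  q0 q0_map er ep)

variable {ι : Type} {n : ι → ℕ} [Fintype ι] [DecidableEq ι] {q : ℕ} {w : Fin (q + 1) → ℂ} {hw : w 0 = 1}

theorem Q_eval (a : (Σ i, Fin (n i + 2)) × Fin (q + 1) → ℂ) (i : ι) :
    ((bfF n w hw).Q i).map (MvPolynomial.aeval a) = q0 ℂ (n i) := by
  show ((q0 Qbar (n i)).map MvPolynomial.C).map (MvPolynomial.aeval a) = q0 ℂ (n i)
  rw [← q0_map (algebraMap Qbar ℂ)]
  refine Matrix.ext fun r s => ?_
  rw [Matrix.map_apply, Matrix.map_apply, Matrix.map_apply, MvPolynomial.aeval_C]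

theorem F0_tor {x : (Σ i, Fin (n i + 2)) × Fin (q + 1) → ℂ} {Y : Ix (mi n) → ℂ} :
    Y ∈ (bfF n w hw).Tor x ↔ ((fun i => bl Y i), tpi) ∈ TorG n := by
  unfold TorG SympFam.Tor
  simp only [Set.mem_ofPred_eq]
  constructor
  · intro h
    refine ⟨tpi_ne, fun i => ?_⟩
    have h1 : bl Y i * ((bfF n w hw).Q i).map (MvPolynomial.aeval x) * (bl Y i).transpose =
      tpi ^ 1 • (bm ℚ (mi n i)).map (algebraMap ℚ ℂ) := h i
    rw [Q_eval, pow_one] at h1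
    exact h1
  · rintro ⟨_, h⟩ i
    show bl Y i * ((bfF n w hw).Q i).map (MvPolynomial.aeval x) * (bl Y i).transpose =
      tpi ^ 1 • (bm ℚ (mi n i)).map (algebraMap ℚ ℂ)
    rw [Q_eval, pow_one]
    exact h i

/-- **Relations given by arrays**: outside the exceptional sets of the family, at the scaled point -/
theorem good_arr {k : ℕ} {h : Type} [Fintype h] {v : h → ℂ} {S : ℕ} (hS : 0 < S)
    {xq : (Σ i, Fin (n i + 2)) × Fin (q + 1) → ℚ} {Lc : Set ((Σ i, Fin (n i + 2)) × Fin (q + 1) → ℂ)} {A T : ℝ}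
    (h1 : ∀ j, Y120.HtLe ℚ T (xq j)) (h2 : (fun j => (algebraMap ℚ ℂ) (xq j)) ∈ Lc) (hL : Lc ⊆ (bfF n w hw).U)
    (h3 : xq ∉ ExcT k (bfF n w hw).f (bfF n w hw).Tor Lc ℚ (algebraMap ℚ ℂ) v A T)
    (c : (Ix (mi n) → Fin (k + 1)) → h → ℤ) (hc : ∀ l a, (S : ℝ) ^ (2 * exL n k) * |(c l a : ℝ)| ≤ T ^ A)
    (h4 : arv (fun l a => (c l a : ℂ)) v (PM n (scp n S (Lm w fun j => (algebraMap ℚ ℂ) (xq j)))
      (fun i => er (pj (scp n S (Lm w fun j => (algebraMap ℚ ℂ) (xq j))) i))) = 0) :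
    (∀ Y, (Y, tpi) ∈ TorG n → arv (fun l a => (c l a : ℂ)) v Y = 0) ∧
    ∀ Y ∈ (bfF n w hw).Tor (fun j => (algebraMap ℚ ℂ) (xq j)),
      ∑ l, (∑ a, v a * (algebraMap ℚ ℂ) (zc S c l a : ℚ)) * ∏ y, Y y ^ (l y : ℕ) = 0 := by
  classical
  set x : (Σ i, Fin (n i + 2)) → ℂ := Lm w (fun j => (algebraMap ℚ ℂ) (xq j)) with hx
  have hS0 : (0 : ℝ) < (S : ℝ) := by exact_mod_cast hS
  have hSC : ((S : ℝ) : ℂ) ≠ 0 := by exact_mod_cast hS0.ne'
  have hxU : x ∈ UU n := hL h2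
  have hS1 : (1 : ℝ) ≤ S := by exact_mod_cast hS
  have hcast : (fun (l : Ix (mi n) → Fin (k + 1)) (a : h) => ((S : ℝ) : ℂ) ^ exq n l * (c l a : ℂ)) =
      fun l a => (algebraMap ℚ ℂ) (zc S c l a : ℚ) := by
    funext l a
    rw [zc_map]
    push_cast
    rfl
  have key : ∀ Y ∈ (bfF n w hw).Tor (fun j => (algebraMap ℚ ℂ) (xq j)),
      ∑ l, (∑ a, v a * (algebraMap ℚ ℂ) (zc S c l a : ℚ)) * ∏ y, Y y ^ (l y : ℕ) = 0 := by
    by_contra hne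
    apply h3
    refine ⟨h1, h2, zc S c, ?_, ?_, hne⟩
    · intro l a φ
      rw [zc_map, norm_mul, norm_pow]
      have e1 : ‖(S : ℂ)‖ = (S : ℝ) := by simp
      have e2 : ‖(c l a : ℂ)‖ = |(c l a : ℝ)| := by
        rw [← Complex.ofReal_intCast, Complex.norm_real, Real.norm_eq_abs]
      rw [e1, e2]
      refine le_trans ?_ (hc l a)
      exact mul_le_mul_of_nonneg_right (pow_le_pow_right₀ hS1 (exq_le l)) (abs_nonneg _)
    · have e1 := arv_scale hS0 (fun l a => (c l a : ℂ)) v (fun i => PA (pj x i))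
      rw [← rs_PM hS0 hxU, h4, mul_zero, hcast] at e1
      exact e1.symm
  refine ⟨fun Y hY => ?_, key⟩
  set Z : ∀ i, Matrix (Fin (mi n i)) (Fin (mi n i)) ℂ := fun i =>
    Matrix.of fun l j => ((S : ℝ) : ℂ) ^ (-ep (n i) j) * Y i l j with hZ
  have hZY : rs n S Z = Y := rs_inv hS0 Y
  rw [← hZY, rs_tor hS0] at hY
  have h5 : (fun q : Ix (mi n) => Z q.1 q.2.1 q.2.2) ∈ (bfF n w hw).Tor (fun j => (algebraMap ℚ ℂ) (xq j)) := by
    rw [F0_tor]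
    exact hY
  have h6 := key _ h5
  have e1 := arv_scale hS0 (fun l a => (c l a : ℂ)) v Z
  rw [hcast] at e1
  have e2 : arv (fun l a => (algebraMap ℚ ℂ) (zc S c l a : ℚ)) v Z = 0 := h6
  rw [e2, hZY] at e1
  exact (mul_eq_zero.1 e1).resolve_left (pow_ne_zero _ hSC)

/-- relations with powers of `2 π i` as coefficients: all multipliers -/
theorem good_full {k h : ℕ} {S : ℕ} (hS : 0 < S)
    {xq : (Σ i, Fin (n i + 2)) × Fin (q + 1) → ℚ} {Lc : Set ((Σ i, Fin (n i + 2)) × Fin (q + 1) → ℂ)} {A T : ℝ}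
    (h1 : ∀ j, Y120.HtLe ℚ T (xq j)) (h2 : (fun j => (algebraMap ℚ ℂ) (xq j)) ∈ Lc) (hL : Lc ⊆ (bfF n w hw).U)
    (h3 : xq ∉ ExcT k (bfF n w hw).f (bfF n w hw).Tor Lc ℚ (algebraMap ℚ ℂ) (fun a : Fin h => tpi ^ (a : ℕ)) A T)
    (c : (Ix (mi n) → Fin (k + 1)) → Fin h → ℤ) (hc : ∀ l a, (S : ℝ) ^ (2 * exL n k) * |(c l a : ℝ)| ≤ T ^ A)
    (h4 : arv (fun l a => (c l a : ℂ)) (fun a : Fin h => tpi ^ (a : ℕ))
      (PM n (scp n S (Lm w fun j => (algebraMap ℚ ℂ) (xq j)))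
      (fun i => er (pj (scp n S (Lm w fun j => (algebraMap ℚ ℂ) (xq j))) i))) = 0) :
    ∀ p ∈ TorG n, arv (fun l a => (c l a : ℂ)) (fun a : Fin h => p.2 ^ (a : ℕ)) p.1 = 0 := by
  classical
  obtain ⟨-, h5⟩ := good_arr hS h1 h2 hL h3 c hc h4
  set x : (Σ i, Fin (n i + 2)) → ℂ := Lm w (fun j => (algebraMap ℚ ℂ) (xq j)) with hx
  have hS0 : (0 : ℝ) < (S : ℝ) := by exact_mod_cast hS
  have hSC : ((S : ℝ) : ℂ) ≠ 0 := by exact_mod_cast hS0.ne'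
  have hcast : (fun (l : Ix (mi n) → Fin (k + 1)) (a : Fin h) => ((S : ℝ) : ℂ) ^ exq n l * (c l a : ℂ)) =
      fun l a => (algebraMap ℚ ℂ) (zc S c l a : ℚ) := by
    funext l a
    rw [zc_map]
    push_cast
    rfl
  rintro ⟨Y, μ⟩ hY
  set Z : ∀ i, Matrix (Fin (mi n i)) (Fin (mi n i)) ℂ := fun i =>
    Matrix.of fun l j => ((S : ℝ) : ℂ) ^ (-ep (n i) j) * Y i l j with hZ
  have hZY : rs n S Z = Y := rs_inv hS0 Y
  rw [← hZY, rs_tor hS0] at hY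
  have h6 := (bfF n w hw).full (algebraMap ℚ ℂ) xq (hL h2) (fun l a => (zc S c l a : ℚ)) h5 hY.1
    (fun q : Ix (mi n) => Z q.1 q.2.1 q.2.2) (fun i => by
      have e1 := hY.2 i
      show bl (fun q : Ix (mi n) => Z q.1 q.2.1 q.2.2) i * ((bfF n w hw).Q i).map (MvPolynomial.aeval (fun j => (algebraMap ℚ ℂ) (xq j))) *
        (bl (fun q : Ix (mi n) => Z q.1 q.2.1 q.2.2) i).transpose = μ ^ 1 • (bm ℚ (mi n i)).map (algebraMap ℚ ℂ)
      rw [Q_eval, pow_one]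
      exact e1)
  have e1 := arv_scale hS0 (fun l a => (c l a : ℂ)) (fun a : Fin h => μ ^ (a : ℕ)) Z
  rw [hcast] at e1
  have e2 : arv (fun l a => (algebraMap ℚ ℂ) (zc S c l a : ℚ)) (fun a : Fin h => μ ^ (a : ℕ)) Z = 0 := h6
  rw [e2, hZY] at e1
  exact (mul_eq_zero.1 e1).resolve_left (pow_ne_zero _ hSC)

end Pool.Agent.N121.BF
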