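import Pool.Agent.N121.AH.Null
import Pool.Agent.N121.AH.Scale
import Pool.Agent.N121.BF.Pull

/-!
# The real points outside the domain
-/

set_option autoImplicit false
set_option linter.unusedSectionVars false

open Filter Matrix Topology MeasureTheory ComplexConjugate

namespace Pool.Agent.N121.BF

open Pool.Agent.Y890.MV
open Pool.Agent.N121.OH
open Pool.Agent.N121.AH

variable {m q : ℕ}

/-- the coefficients of the product of two polynomials -/
noncomputable def mulc {R : Type*} [CommRing R] (a b : Fin (m + 2) → R) (k : Fin (2 * m + 1 + 2)) : R :=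
  (fp a * fp b).coeff (k : ℕ)

theorem mulc_map {R S : Type*} [CommRing R] [CommRing S] (φ : R →+* S) (a b : Fin (m + 2) → R)
    (k : Fin (2 * m + 1 + 2)) : φ (mulc a b k) = mulc (fun i => φ (a i)) (fun i => φ (b i)) k := by
  unfold mulc
  rw [← Polynomial.coeff_map, Polynomial.map_mul, map_fp, map_fp]

theorem fp_degree_le {R : Type*} [CommRing R] (a : Fin (m + 2) → R) : (fp a).natDegree ≤ m + 1 := by
  rw [Polynomial.natDegree_le_iff_coeff_eq_zero]
  intro k hk
  exact fp_big a hk

theorem fp_mulc {R : Type*} [CommRing R] (a b : Fin (m + 2) → R) : fp (mulc a b) = fp a * fp b := by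
  ext k
  rw [fp_coeff]
  split_ifs with h
  · rfl
  · symm
    apply Polynomial.coeff_eq_zero_of_natDegree_lt
    have h1 := fp_degree_le a
    have h2 := fp_degree_le b
    have h3 := Polynomial.natDegree_mul_le (p := fp a) (q := fp b)
    omega

theorem fp_inj {R : Type*} [CommRing R] {a b : Fin (m + 2) → R} (h : fp a = fp b) : a = b := by
  funext k
  rw [← fp_coeff_fin a k, ← fp_coeff_fin b k, h]

/-- every polynomial is a product -/
theorem exists_factor {A : Fin (2 * m + 1 + 2) → ℂ} (hA : A (Fin.last (2 * m + 1 + 1)) ≠ 0) :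
    ∃ a b : Fin (m + 2) → ℂ, mulc a b = A := by
  obtain ⟨z, hz⟩ := exists_roots (n := 2 * m + 1) (cp_monic (bq A)) (cp_natDegree (bq A))
  have h0 := fp_eq hA
  rw [hz] at h0
  have hfin : 2 * m + 1 + 1 = (m + 1) + (m + 1) := by omega
  set z' : Fin ((m + 1) + (m + 1)) → ℂ := fun i => z (Fin.cast hfin.symm i) with hz'
  have h1 : rp z = rp (fun i : Fin (m + 1) => z' (Fin.castAdd (m + 1) i)) *
      rp (fun i : Fin (m + 1) => z' (Fin.natAdd (m + 1) i)) := by
    unfold rp
    rw [← Fin.prod_univ_add (fun i => Polynomial.X - Polynomial.C (z' i))]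
    rw [hz']
    exact (Equiv.prod_comp (finCongr hfin.symm) fun i => Polynomial.X - Polynomial.C (z i)).symm
  have hex : ∀ (c : ℂ) (u : Fin (m + 1) → ℂ), ∃ a : Fin (m + 2) → ℂ, fp a = Polynomial.C c * rp u := by
    intro c u
    refine ⟨fun k => (Polynomial.C c * rp u).coeff k, ?_⟩
    ext k
    rw [fp_coeff]
    split_ifs with h
    · rfl
    · symm
      rw [Polynomial.coeff_C_mul]
      have h2 : (rp u).coeff k = 0 := by
        apply Polynomial.coeff_eq_zero_of_natDegree_lt
        have h3 : (rp u).natDegree ≤ m + 1 := by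
          unfold rp
          refine (Polynomial.natDegree_prod_le _ _).trans ?_
          simp
        omega
      rw [h2, mul_zero]
  obtain ⟨a, ha⟩ := hex (A (Fin.last (2 * m + 1 + 1))) (fun i : Fin (m + 1) => z' (Fin.castAdd (m + 1) i))
  obtain ⟨b, hb⟩ := hex 1 (fun i : Fin (m + 1) => z' (Fin.natAdd (m + 1) i))
  refine ⟨a, b, fp_inj ?_⟩
  rw [fp_mulc, ha, hb, h0, h1, map_one, one_mul, mul_assoc]

/-- the coefficients as polynomials -/
noncomputable def LmP (w : Fin (q + 1) → ℂ) (k : Fin (m + 2)) : MvPolynomial (Fin (m + 2) × Fin (q + 1)) ℂ :=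
  ∑ i, MvPolynomial.C (w i) * MvPolynomial.X (k, i)

theorem LmP_eval (w : Fin (q + 1) → ℂ) (y : Fin (m + 2) × Fin (q + 1) → ℂ) (k : Fin (m + 2)) :
    MvPolynomial.eval y (LmP w k) = Lm w y k := by
  unfold LmP Lm
  rw [map_sum]
  refine Finset.sum_congr rfl fun i _ => ?_
  rw [map_mul, MvPolynomial.eval_C, MvPolynomial.eval_X]

theorem eval_aeval2 {A B : Type} (G : MvPolynomial A ℂ) (f : A → MvPolynomial B ℂ) (x : B → ℂ) :
    MvPolynomial.eval x (MvPolynomial.aeval f G) = MvPolynomial.eval (fun i => MvPolynomial.eval x (f i)) G := by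
  have h2 : (MvPolynomial.eval x).comp (MvPolynomial.aeval f : MvPolynomial A ℂ →ₐ[ℂ] _).toRingHom =
      MvPolynomial.eval (fun i => MvPolynomial.eval x (f i)) := by
    refine MvPolynomial.ringHom_ext (fun b => ?_) fun i => ?_
    · simp [MvPolynomial.algebraMap_eq]
    · simp
  exact congrArg (fun k => k G) h2

/-- the linear form for the leading coefficient -/
noncomputable def lf (w : Fin (q + 1) → ℂ) : MvPolynomial (Fin (m + 2) × Fin (q + 1)) ℂ :=
  ∑ i, MvPolynomial.C (((w i).re - (w i).im : ℝ) : ℂ) * MvPolynomial.X (Fin.last (m + 1), i)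

theorem lf_ne {w : Fin (q + 1) → ℂ} (hw : w 0 = 1) : lf (m := m) w ≠ 0 := by
  intro h0
  have h1 := congrArg (MvPolynomial.eval (sm fun _ => (1 : ℂ))) h0
  rw [map_zero] at h1
  unfold lf at h1
  rw [map_sum, Finset.sum_eq_single 0] at h1
  · rw [map_mul, MvPolynomial.eval_C, MvPolynomial.eval_X, hw] at h1
    simp [sm] at h1
  · intro b _ hb
    rw [map_mul, MvPolynomial.eval_X]
    unfold sm
    rw [if_neg hb, mul_zero]
  · intro h
    exact absurd (Finset.mem_univ _) h

theorem lf_eval (w : Fin (q + 1) → ℂ) (y : Fin (m + 2) × Fin (q + 1) → ℝ) :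
    MvPolynomial.eval (fun p => (y p : ℂ)) (lf w) =
      (((Lm w (fun p => (y p : ℂ)) (Fin.last (m + 1))).re - (Lm w (fun p => (y p : ℂ)) (Fin.last (m + 1))).im : ℝ) : ℂ) := by
  unfold lf Lm
  rw [map_sum, Complex.re_sum, Complex.im_sum, ← Finset.sum_sub_distrib, Complex.ofReal_sum]
  refine Finset.sum_congr rfl fun i _ => ?_
  rw [map_mul, MvPolynomial.eval_C, MvPolynomial.eval_X, Complex.re_mul_ofReal, Complex.im_mul_ofReal]
  push_cast
  ring

theorem slit_of {c : ℂ} (hc : c.re - c.im ≠ 0) : c / u0 ∈ Complex.slitPlane := by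
  rw [Complex.mem_slitPlane_iff]
  right
  have h1 : (c / u0).im = -(c.re - c.im) / 2 := by
    unfold u0
    rw [Complex.div_im]
    simp [Complex.normSq_apply]
    ring
  rw [h1]
  intro h0
  apply hc
  linarith

theorem Lm_conj (w : Fin (q + 1) → ℂ) {X : Type} (y : X × Fin (q + 1) → ℝ) (x : X) :
    conj (Lm w (fun p => (y p : ℂ)) x) = Lm (fun i => conj (w i)) (fun p => (y p : ℂ)) x := by
  unfold Lm
  rw [map_sum]
  refine Finset.sum_congr rfl fun i _ => ?_
  rw [map_mul, Complex.conj_ofReal]

/-- the product with the conjugate polynomial is real -/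
theorem mulc_real (a : Fin (m + 2) → ℂ) (k : Fin (2 * m + 1 + 2)) :
    ((mulc a (fun i => conj (a i)) k).re : ℂ) = mulc a (fun i => conj (a i)) k := by
  have h1 : conj (mulc a (fun i => conj (a i)) k) = mulc a (fun i => conj (a i)) k := by
    rw [mulc_map]
    simp only [Complex.conj_conj]
    unfold mulc
    rw [mul_comm]
  exact Complex.conj_eq_iff_re.1 h1

/-- the product with the conjugate polynomial -/
theorem mem_of_prod {a b : Fin (m + 2) → ℂ} (ha : a (Fin.last (m + 1)) / u0 ∈ Complex.slitPlane)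
    (hab : mulc a b ∈ U2 (2 * m + 1)) : a ∈ U2 m := by
  have ha0 : a (Fin.last (m + 1)) ≠ 0 := by
    intro h0
    have h1 := Complex.slitPlane_ne_zero ha
    rw [h0, zero_div] at h1
    exact h1 rfl
  refine ⟨ha, ?_⟩
  obtain ⟨z, hz⟩ := exists_roots (cp_monic (bq a)) (cp_natDegree (bq a))
  refine mem_Un_of_sep u0_ne hz ?_
  have hfp := fp_er hab
  rw [fp_mulc, fp_eq ha0, hz] at hfp
  have hlast := lead_ne hab
  -- the roots of the product
  intro r s hrs
  by_contra hne
  have hroot : ∀ t, ∃ j, er (mulc a b) j = z t := by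
    intro t
    have h1 := congrArg (Polynomial.eval (z t)) hfp
    rw [Polynomial.eval_mul, Polynomial.eval_mul] at h1
    have h2 : (rp z).eval (z t) = 0 := by
      unfold rp
      rw [Polynomial.eval_prod]
      exact Finset.prod_eq_zero (Finset.mem_univ t) (by simp)
    rw [h2, mul_zero, zero_mul, Polynomial.eval_mul, Polynomial.eval_C] at h1
    have h3 := (mul_eq_zero.1 h1.symm).resolve_left hlast
    unfold rp at h3
    rw [Polynomial.eval_prod, Finset.prod_eq_zero_iff] at h3
    obtain ⟨j, _, h5⟩ := h3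
    rw [Polynomial.eval_sub, Polynomial.eval_X, Polynomial.eval_C, sub_eq_zero] at h5
    exact ⟨j, h5.symm⟩
  obtain ⟨j, hj⟩ := hroot r
  obtain ⟨k, hk⟩ := hroot s
  have hre : ∀ z : ℂ, (u0⁻¹ * z).re = (z.re + z.im) / 2 := by
    intro z
    unfold u0
    rw [Complex.mul_re, Complex.inv_re, Complex.inv_im]
    simp [Complex.normSq_apply]
    ring
  have hrs' : (z r).re + (z r).im = (z s).re + (z s).im := by
    have h1 : (u0⁻¹ * z r).re = (u0⁻¹ * z s).re := hrs
    rw [hre, hre] at h1
    linarith
  have hjk : j = k := by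
    by_contra hjk
    rcases lt_or_gt_of_ne hjk with h | h
    · have := er_order hab j k h
      rw [hj, hk] at this
      linarith
    · have := er_order hab k j h
      rw [hj, hk] at this
      linarith
  subst hjk
  -- a double root
  have hzz : z r = z s := hj.symm.trans hk
  have hsq : (Polynomial.X - Polynomial.C (z r)) ^ 2 ∣ rp z := by
    unfold rp
    rw [← Finset.mul_prod_erase _ _ (Finset.mem_univ r), ← Finset.mul_prod_erase _ _
      (Finset.mem_erase.2 ⟨fun h => hne h.symm, Finset.mem_univ s⟩), ← hzz, ← mul_assoc, ← sq]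
    exact dvd_mul_right _ _
  have hsq2 : (Polynomial.X - Polynomial.C (z r)) ^ 2 ∣ rp (er (mulc a b)) := by
    have h1 : (Polynomial.X - Polynomial.C (z r)) ^ 2 ∣
        Polynomial.C (mulc a b (Fin.last (2 * m + 1 + 1))) * rp (er (mulc a b)) := by
      rw [← hfp]
      exact Dvd.dvd.mul_right (Dvd.dvd.mul_left hsq _) _
    have hu : IsUnit (Polynomial.C (mulc a b (Fin.last (2 * m + 1 + 1)))) :=
      Polynomial.isUnit_C.2 (isUnit_iff_ne_zero.2 hlast)
    exact (hu.dvd_mul_left).1 h1
  have hinj : Function.Injective (er (mulc a b)) := by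
    intro i k hik
    by_contra hne'
    rcases lt_or_gt_of_ne hne' with h | h
    · have := er_order hab i k h
      rw [hik] at this
      exact lt_irrefl _ this
    · have := er_order hab k i h
      rw [hik] at this
      exact lt_irrefl _ this
  have hsep : (rp (er (mulc a b))).Separable := by
    unfold rp
    exact Polynomial.separable_prod_X_sub_C_iff.2 hinj
  have h9 := hsep.squarefree _ (by rw [← sq]; exact hsq2)
  exact Polynomial.not_isUnit_X_sub_C _ h9

/-- **the polynomial** -/
theorem exists_H3 (m : ℕ) {w : Fin (q + 1) → ℂ} (hw : w 0 = 1) :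
    ∃ H : MvPolynomial (Fin (m + 2) × Fin (q + 1)) ℂ, H ≠ 0 ∧ ∀ y : Fin (m + 2) × Fin (q + 1) → ℝ,
      Lm w (fun p => (y p : ℂ)) ∉ U2 m → MvPolynomial.eval (fun p => (y p : ℂ)) H = 0 := by
  by_cases hreal : ∀ i, (w i).im = 0
  · obtain ⟨H, hH0, hH⟩ := exists_H2 m
    refine ⟨MvPolynomial.aeval (LmP w) H, ?_, ?_⟩
    · intro h0
      apply hH0
      refine MvPolynomial.funext fun x => ?_
      have h1 := congrArg (MvPolynomial.eval (sm x)) h0
      rw [eval_aeval2, map_zero] at h1
      rw [map_zero, ← h1]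
      congr 1
      congr 1
      funext k
      rw [LmP_eval, Lm_sm hw]
    · intro y hy
      rw [eval_aeval2]
      have h1 : (fun k => MvPolynomial.eval (fun p => (y p : ℂ)) (LmP (m := m) w k)) =
          fun k => (((Lm w (fun p => (y p : ℂ)) k).re : ℝ) : ℂ) := by
        funext k
        rw [LmP_eval]
        apply Complex.ext
        · rw [Complex.ofReal_re]
        · rw [Complex.ofReal_im]
          unfold Lm
          rw [Complex.im_sum]
          refine Finset.sum_eq_zero fun i _ => ?_
          rw [Complex.im_mul_ofReal, hreal, zero_mul]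
      have h2 : Lm w (fun p => (y p : ℂ)) = fun k => MvPolynomial.eval (fun p => (y p : ℂ)) (LmP (m := m) w k) := by
        funext k
        rw [LmP_eval]
      rw [h1]
      apply hH
      rw [← h1, ← h2]
      exact hy
  · push Not at hreal
    obtain ⟨t, ht⟩ := hreal
    have ht0 : t ≠ 0 := by
      rintro rfl
      apply ht
      rw [hw, Complex.one_im]
    obtain ⟨H, hH0, hH⟩ := exists_H2 (2 * m + 1)
    set G : MvPolynomial (Fin (m + 2) × Fin (q + 1)) ℂ :=
      MvPolynomial.aeval (mulc (LmP w) (LmP fun i => conj (w i))) H with hG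
    have hGe : ∀ y : Fin (m + 2) × Fin (q + 1) → ℂ, MvPolynomial.eval y G =
        MvPolynomial.eval (mulc (Lm w y) (Lm (fun i => conj (w i)) y)) H := by
      intro y
      rw [hG, eval_aeval2]
      congr 1
      congr 1
      funext k
      rw [mulc_map]
      simp only [LmP_eval]
    refine ⟨lf w * G, mul_ne_zero (lf_ne hw) ?_, ?_⟩
    · intro h0
      -- a point where `H` does not vanish
      have h1 : H * MvPolynomial.X (Fin.last (2 * m + 1 + 1)) ≠ 0 := mul_ne_zero hH0 (MvPolynomial.X_ne_zero _)
      obtain ⟨A, hA⟩ : ∃ A, MvPolynomial.eval A (H * MvPolynomial.X (Fin.last (2 * m + 1 + 1))) ≠ 0 := by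
        by_contra hcon
        push Not at hcon
        exact h1 (MvPolynomial.funext fun b => by rw [hcon b, map_zero])
      rw [map_mul, MvPolynomial.eval_X] at hA
      obtain ⟨a, b, hab⟩ := exists_factor (right_ne_zero_of_mul hA)
      have hd : conj (w t) - w t ≠ 0 := by
        intro h2
        have h3 := congrArg Complex.im h2
        rw [Complex.sub_im, Complex.conj_im, Complex.zero_im] at h3
        apply ht
        linarith
      -- the point with the given factors
      set β : Fin (m + 2) → ℂ := fun k => (b k - a k) / (conj (w t) - w t) with hβ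
      set y : Fin (m + 2) × Fin (q + 1) → ℂ := fun p => if p.2 = 0 then a p.1 - w t * β p.1 else
        if p.2 = t then β p.1 else 0 with hy
      have hL : ∀ v : Fin (q + 1) → ℂ, v 0 = 1 → Lm v y = fun k => a k - w t * β k + v t * β k := by
        intro v hv
        funext k
        unfold Lm
        rw [← Finset.add_sum_erase _ _ (Finset.mem_univ (0 : Fin (q + 1))),
          Finset.sum_eq_single_of_mem t (Finset.mem_erase.2 ⟨ht0, Finset.mem_univ _⟩)]
        · rw [hy, hv, one_mul]
          simp only [ht0, if_true, if_false]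
        · intro i hi hit
          rw [hy]
          simp only
          rw [if_neg (Finset.ne_of_mem_erase hi), if_neg hit, mul_zero]
      have hL1 : Lm w y = a := by
        rw [hL w hw]
        funext k
        ring
      have hL2 : Lm (fun i => conj (w i)) y = b := by
        rw [hL (fun i => conj (w i)) (by rw [hw, map_one])]
        funext k
        rw [hβ]
        field_simp
        ring
      have h2 := hGe y
      rw [h0, map_zero, hL1, hL2, hab] at h2
      exact left_ne_zero_of_mul hA h2.symm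
    · intro y hy
      rw [map_mul, lf_eval]
      by_cases hc : (Lm w (fun p => (y p : ℂ)) (Fin.last (m + 1))).re - (Lm w (fun p => (y p : ℂ)) (Fin.last (m + 1))).im = 0
      · rw [hc, Complex.ofReal_zero, zero_mul]
      · rw [hGe]
        have h1 : (fun i => conj (Lm w (fun p => (y p : ℂ)) i)) = Lm (X := Fin (m + 2)) (fun i => conj (w i))
            (fun p => (y p : ℂ)) := by
          funext i
          rw [Lm_conj]
        have h2 : mulc (Lm w (fun p => (y p : ℂ))) (Lm (fun i => conj (w i)) (fun p => (y p : ℂ))) ∉ U2 (2 * m + 1) :=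
          fun h => hy (mem_of_prod (slit_of hc) h)
        rw [← h1] at h2 ⊢
        have h3 : mulc (Lm w (fun p => (y p : ℂ))) (fun i => conj (Lm w (fun p => (y p : ℂ)) i)) =
            fun k => ((mulc (Lm w (fun p => (y p : ℂ))) (fun i => conj (Lm w (fun p => (y p : ℂ)) i)) k).re : ℂ) := by
          funext k
          rw [mulc_real]
        rw [h3] at h2 ⊢
        rw [hH _ h2, mul_zero]

variable {ι : Type} {n : ι → ℕ} [Fintype ι] [DecidableEq ι]

theorem null_B (n : ι → ℕ) {w : Fin (q + 1) → ℂ} (hw : w 0 = 1) :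
    volume {y : (Σ i, Fin (n i + 2)) × Fin (q + 1) → ℝ | cx y ∉ Lm w ⁻¹' (UU n)} = 0 := by
  choose H hH0 hH using fun i => exists_H3 (q := q) (n i) hw
  set f : ∀ i : ι, Fin (n i + 2) × Fin (q + 1) → (Σ i, Fin (n i + 2)) × Fin (q + 1) := fun i p => (⟨i, p.1⟩, p.2)
    with hf
  have hfi : ∀ i, Function.Injective (f i) := by
    intro i a b hab
    rw [hf] at hab
    simp only [Prod.mk.injEq, Sigma.mk.injEq, heq_eq_eq, true_and] at hab
    exact Prod.ext hab.1 hab.2
  have hsub : {y : (Σ i, Fin (n i + 2)) × Fin (q + 1) → ℝ | cx y ∉ Lm w ⁻¹' (UU n)} ⊆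
      ⋃ i, {y | MvPolynomial.eval (fun p => (y p : ℂ)) (MvPolynomial.rename (f i) (H i)) = 0} := by
    intro y hy
    have hy' : ¬ ∀ i, pj (Lm w (cx y)) i ∈ U2 (n i) := hy
    rw [not_forall] at hy'
    obtain ⟨i, hi⟩ := hy'
    refine Set.mem_iUnion.2 ⟨i, ?_⟩
    show MvPolynomial.eval (fun p => (y p : ℂ)) (MvPolynomial.rename (f i) (H i)) = 0
    rw [MvPolynomial.eval_rename]
    exact hH i (fun p => y (f i p)) hi
  refine measure_mono_null hsub ?_
  rw [measure_iUnion_null_iff]
  intro i
  refine H450Sp.poly_null _ ?_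
  exact (map_ne_zero_iff _ (MvPolynomial.rename_injective _ (hfi i))).2 (hH0 i)

end Pool.Agent.N121.BF
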