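import Pool.Agent.N121.BF.Arr
import Pool.Agent.N121.BF.Null
import Pool.Agent.N121.AH.Main

/-!
# Relations between the periods of almost all tuples of hyperelliptic curves over a finitely generated group
-/

set_option autoImplicit false
set_option linter.unusedSectionVars false

open Complex Set Filter Topology NumberField Matrix MeasureTheory

namespace Pool.Agent.N121.BF

open Pool.Agent.Y118.HP (jm jm_apply jm_det jm_transpose jm_diag jm_map qm bm bm_eq aeval_int_map)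
open Pool.Agent.Y890.MV
open Pool.Agent.Y890.SM
open Pool.Agent.Y124 (Cov)
open Pool.Agent.N121.OH (arv ptS TorS BX sc cx sd sd_pos sd_one sd2_one lt_sd' house_int mem_BX arv_rel arv_abs
  exists_M descent fsl osl)
open Pool.Agent.N121.AH (mi mm mm_even UU PA U2 fp TorG rs PM scp rs_PM rs_inv exq exL exq_le exq_eq arv_scale zc zc_map
  rs_tor q0 q0_map er ep PM_mem torG_iff exists_X0 Tp sc_mem fp_er er_order lead_ne)

variable {ι : Type} {n : ι → ℕ} {q : ℕ}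

/-- the indices -/
abbrev XB (n : ι → ℕ) (q : ℕ) : Type := (Σ i, Fin (n i + 2)) × Fin (q + 1)

/-- the weights -/
def wt (n : ι → ℕ) (q : ℕ) (_p : XB n q) : ℕ := 1

theorem wt_pos (p : XB n q) : 1 ≤ wt n q p := le_rfl

/-- the scaled rational point -/
def xq (T : ℕ) (a : XB n q → ℤ) (p : XB n q) : ℚ := (a p : ℚ) / (sd T : ℚ) ^ 2

theorem xq_cx (T : ℕ) (a : XB n q → ℤ) :
    (fun p => (algebraMap ℚ ℂ) (xq T a p)) = cx (sc (wt n q) T a) := by
  funext p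
  unfold xq cx sc wt
  simp

variable [Fintype ι] [DecidableEq ι]

theorem xq_ht {T : ℕ} {a : XB n q → ℤ} (ha : a ∈ BX (wt n q) T) (p : XB n q) :
    Y120.HtLe ℚ (Tp T) (xq T a p) := by
  have h1 : |(a p : ℝ)| ≤ (T : ℝ) ^ 1 := by exact_mod_cast mem_BX.1 ha p
  rw [pow_one] at h1
  refine ⟨((a p : ℤ) : 𝓞 ℚ), ((((sd T : ℤ) ^ 2 : ℤ)) : 𝓞 ℚ), ?_, ?_, ?_, ?_⟩
  · have h4 : ((sd T : ℤ) ^ 2 : ℤ) ≠ 0 := by
      have h5 := sd_pos T
      positivity
    exact_mod_cast h4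
  · exact house_int _ (h1.trans (lt_sd' T).le)
  · refine house_int _ ?_
    rw [abs_of_nonneg (by positivity)]
    push_cast
    exact le_rfl
  · unfold xq
    simp

/-- the relations at a tuple of curves -/
def GoodB (n : ι → ℕ) (k : ℕ) (H : ℝ) (ξ : Fin k → ℂ) (a : (Σ i, Fin (n i + 2)) → ℂ) : Prop :=
  ∃ e : ∀ i, Fin (n i + 1) → ℂ,
    (∀ i, a ⟨i, Fin.last (n i + 1)⟩ ≠ 0 ∧
      fp (pj a i) = Polynomial.C (a ⟨i, Fin.last (n i + 1)⟩) * OH.rp (e i) ∧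
      ∀ r s, r < s → (e i r).re + (e i r).im < (e i s).re + (e i s).im) ∧
    (PM n a e, tpi) ∈ TorG n ∧
    (∀ (K : Type) [Field K] [NumberField K] (φ : K →+* ℂ) (P : MvPolynomial (Option (Ix (mi n))) (𝓞 K)),
      Module.finrank ℚ K ≤ k → P.totalDegree ≤ k →
      (∀ s (ψ : K →+* ℂ), ‖ψ (algebraMap (𝓞 K) K (P.coeff s))‖ ≤ H) →
      MvPolynomial.eval (ptS (PM n a e) tpi) (P.map (φ.comp (algebraMap (𝓞 K) K))) = 0 →
      ∀ x ∈ TorG n, MvPolynomial.eval (ptS x.1 x.2) (P.map (φ.comp (algebraMap (𝓞 K) K))) = 0) ∧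
    ∀ P : Fin k → MvPolynomial (Ix (mi n)) ℤ, (∀ a, (P a).totalDegree ≤ k) → (∀ a s, |(((P a).coeff s : ℤ) : ℝ)| ≤ H) →
      ∑ b, ξ b * MvPolynomial.aeval (fun q : Ix (mi n) => PM n a e q.1 q.2.1 q.2.2) (P b) = 0 →
      ∀ Y, (Y, tpi) ∈ TorG n → ∑ b, ξ b * MvPolynomial.aeval (fun q : Ix (mi n) => Y q.1 q.2.1 q.2.2) (P b) = 0

variable {w : Fin (q + 1) → ℂ} {hw : w 0 = 1}

/-- outside the exceptional sets -/
theorem good_of [Nonempty ι] (k : ℕ) : ∃ C : ℕ, ∀ T : ℕ, C ≤ T → ∀ (ξ : Fin k → ℂ) (Lc : Set (XB n q → ℂ)),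
    Lc ⊆ (bfF n w hw).U → ∀ a ∈ BX (wt n q) T, cx (sc (wt n q) T a) ∈ Lc →
    xq T a ∉ ExcT k (bfF n w hw).f (bfF n w hw).Tor Lc ℚ (algebraMap ℚ ℂ) ξ ((exL n k + k : ℕ) : ℝ) (Tp T) →
    xq T a ∉ ExcT (k * k) (bfF n w hw).f (bfF n w hw).Tor Lc ℚ (algebraMap ℚ ℂ)
      (fun a : Fin (k * k + 1) => tpi ^ (a : ℕ)) ((exL n (k * k) + (k * k + 1) : ℕ) : ℝ) (Tp T) →
    GoodB n k ((T : ℝ) ^ k) ξ (Lm w fun p => ((a p : ℤ) : ℂ)) := by
  classical
  obtain ⟨C, hC⟩ := exists_M (σ := Option (Ix (mi n))) k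
  refine ⟨max 1 ⌈C⌉₊, fun T hT ξ Lc hL a ha haL hE1 hE2 => ?_⟩
  have hT1 : 1 ≤ T := (le_max_left _ _).trans hT
  have hTC : C ≤ T := (Nat.le_ceil C).trans (by exact_mod_cast (le_max_right _ _).trans hT)
  have hS : 0 < sd T := sd_pos T
  have hS0 : (0 : ℝ) < (sd T : ℝ) := by exact_mod_cast hS
  set y : XB n q → ℂ := fun p => (algebraMap ℚ ℂ) (xq T a p) with hy
  have hyL : y ∈ Lc := by
    rw [hy, xq_cx]
    exact haL
  set x : (Σ i, Fin (n i + 2)) → ℂ := Lm w y with hx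
  have hxU : x ∈ UU n := hL hyL
  have hsize : ∀ (L m : ℕ) (y : ℝ), 0 ≤ y → y ≤ (T : ℝ) ^ m →
      (sd T : ℝ) ^ (2 * L) * y ≤ Tp T ^ ((L + m : ℕ) : ℝ) := by
    intro L m y hy hym
    rw [Real.rpow_natCast, pow_add, pow_mul]
    have h2 : (T : ℝ) ^ m ≤ Tp T ^ m := pow_le_pow_left₀ (Nat.cast_nonneg _) (lt_sd' T).le _
    exact mul_le_mul le_rfl (hym.trans h2) hy (by unfold Tp; positivity)
  have hscp : scp n (sd T) x = Lm w fun p => ((a p : ℤ) : ℂ) := by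
    have h1 : ((sd T : ℕ) : ℂ) ≠ 0 := by exact_mod_cast hS.ne'
    have h2 : (fun p => ((((sd T : ℝ)) ^ 2 : ℝ) : ℂ) * y p) = fun p => ((a p : ℤ) : ℂ) := by
      funext p
      rw [hy]
      simp only [xq]
      rw [map_div₀, map_pow, map_natCast, eq_ratCast]
      push_cast
      field_simp
    rw [← h2, Lm_smul]
    rfl
  have hmem := PM_mem hS0 hxU
  rw [hscp] at hmem
  set A : (Σ i, Fin (n i + 2)) → ℂ := Lm w fun p => ((a p : ℤ) : ℂ) with hA
  have hU2 : ∀ i, pj A i ∈ U2 (n i) := by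
    intro i
    rw [← hscp]
    exact (sc_mem hS0 (hxU i)).1
  refine ⟨fun i => er (pj A i), fun i => ⟨lead_ne (hU2 i), fp_er (hU2 i), er_order (hU2 i)⟩, hmem, ?_, ?_⟩
  · intro K _ _ φ P hK hPd hPc hP0
    obtain ⟨M, hM, hMd, hMc⟩ := hC T hTC K hK P hPd hPc
    -- the norm vanishes at the period point
    have hM0 : MvPolynomial.aeval (ptS (PM n A (fun i => er (pj A i))) tpi) M = 0 := by
      rw [aeval_int_map, hM, map_prod]
      refine Finset.prod_eq_zero (Finset.mem_univ φ) ?_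
      rw [MvPolynomial.aeval_eq_eval]
      exact hP0
    rw [arv_abs M hMd, ← hscp] at hM0
    have hv := good_full (w := w) (hw := hw) hS (xq_ht ha) hyL hL hE2
      (fun l (b : Fin (k * k + 1)) => M.coeff (osl l b)) (fun l b => hsize _ _ _ (abs_nonneg _) (hMc _)) hM0
    choose X0 hX0 using fun i => exists_X0 (n i)
    have hdes := descent (n := mi n) (fun i => mm_even (n i)) P φ hX0 (fun z hz => by
      rw [← hM, ← aeval_int_map, arv_abs M hMd]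
      exact hv z (torG_iff.2 hz))
    intro z hz
    have h1 := hdes z (torG_iff.1 hz)
    rw [MvPolynomial.aeval_eq_eval] at h1
    exact h1
  · intro P hPd hPc hP0 Y hY
    rw [arv_rel P hPd] at hP0 ⊢
    rw [← hscp] at hP0
    exact (good_arr (w := w) (hw := hw) hS (xq_ht ha) hyL hL hE1 (fun l b => (P b).coeff (fsl l))
      (fun l b => hsize _ _ _ (abs_nonneg _) (hPc _ _)) hP0).1 Y hY

end Pool.Agent.N121.BF
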